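import Pool.Agent.Lib.MP_24d810_nt.Main

/-! The integers `n ≤ x` with `M(n) ≤ n + (log x)^(2/3)` are very sparse. -/

set_option autoImplicit false

namespace Pool.Agent.Results.MP_24d810_nt.Density

/-- `M n` is the maximum of `m + d(m)` over `1 ≤ m < n`, where `d(m)` is the number of positive
divisors of `m`. -/
def M (n : ℕ) : ℕ := (Finset.Ico 1 n).sup fun m => m + m.divisors.card

theorem result : ∃ c : ℝ, 0 < c ∧ ∃ x₀ : ℕ, ∀ x : ℕ, x₀ ≤ x →
    (((Finset.Icc 2 x).filter fun n : ℕ =>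
        (M n : ℝ) ≤ (n : ℝ) + Real.log x ^ (2 / 3 : ℝ)).card : ℝ) ≤
      x * Real.exp (-(c * (Real.sqrt (Real.log x) / Real.log (Real.log x) ^ (5 / 4 : ℝ)))) := by
  obtain ⟨x₀, h⟩ := Pool.Agent.Lib.MP_24d810_nt.main
  refine ⟨1 / 72000000, by norm_num, x₀, fun x hx => h x hx _ fun a ha => ?_⟩
  obtain ⟨h1, h2⟩ := Finset.mem_filter.1 ha
  have h3 := Finset.mem_Icc.1 h1
  refine ⟨by omega, h3.2, fun m m1 m2 => le_trans ?_ h2⟩
  exact_mod_cast Finset.le_sup (f := fun m => m + m.divisors.card) (Finset.mem_Ico.2 ⟨m1, m2⟩)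

end Pool.Agent.Results.MP_24d810_nt.Density
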